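import Mathlib

/-!
# A planar counting lemma
-/

set_option autoImplicit false
set_option linter.all false

namespace Pool.Agent.X317.Wilf

/-- **The planar lemma.** -/
theorem planar (Λ : AddSubgroup (ℤ × ℤ)) (b : ℤ) (V Q : Finset (ℤ × ℤ))
    (hVΛ : ∀ v ∈ V, v ∈ Λ) (hV0 : ∀ v ∈ V, 0 ≤ v.1 ∧ 0 ≤ v.2) (hVb : ∀ v ∈ V, v.1 + v.2 ≤ b)
    (hVd : ∀ v ∈ V, ∀ w ∈ V, v ≠ w → v.1 + v.2 + (w.1 + w.2) < 2 * b)
    (hVa : ∀ v ∈ V, ∀ w ∈ V, v.1 ≤ w.1 → v.2 ≤ w.2 → v = w)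
    (H0 : ∀ γ ∈ Λ, 0 ≤ γ.1 → 0 ≤ γ.2 → 0 < γ.1 + γ.2 → γ.1 + γ.2 < b →
      ∃ v ∈ V, v.1 ≤ γ.1 ∧ v.2 ≤ γ.2)
    (hz : ∃ v ∈ V, v.2 = 0)
    (hQΛ : ∀ x ∈ Q, x ∈ Λ) (hQ1 : ∀ x ∈ Q, 1 ≤ x.1 ∧ 1 ≤ x.2) (hQb : ∀ x ∈ Q, x.1 + x.2 < b)
    (hQa : ∀ x ∈ Q, ∀ y ∈ Q, x.1 ≤ y.1 → x.2 ≤ y.2 → x = y)
    (hQV : ∀ x ∈ Q, ∀ v ∈ V, x.1 ≤ v.1 ∨ x.2 ≤ v.2) : Q.card + 1 ≤ V.card := by
  classical
  obtain ⟨z, hz, hz0⟩ := hz
  obtain ⟨n1, hn1, hmin⟩ := Finset.exists_min_image V (fun v => v.1) ⟨z, hz⟩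
  have hne : ∀ v ∈ V, ∀ w ∈ V, v ≠ w → v.1 ≠ w.1 := by
    intro v hv w hw h h1
    rcases le_total v.2 w.2 with h2 | h2
    · exact h (hVa v hv w hw h1.le h2)
    · exact h (hVa w hw v hv h1.ge h2).symm
  have hlt : ∀ v ∈ V, ∀ w ∈ V, v.1 < w.1 → w.2 < v.2 := by
    intro v hv w hw h
    by_contra h1
    have h2 := hVa v hv w hw h.le (not_lt.1 h1)
    rw [h2] at h
    exact lt_irrefl _ h
  -- Lemma A
  have lemA : ∀ γ ∈ Λ, 0 ≤ γ.1 → 0 ≤ γ.2 → 0 < γ.1 + γ.2 → ∀ g ∈ V, γ.1 < g.1 →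
      n1.1 < g.1 → ∃ h ∈ V, h.1 < g.1 ∧ h.2 ≤ γ.2 := by
    intro γ hγ h1 h2 h3 g hg hγg hn1g
    by_cases h4 : γ.1 + γ.2 < b
    · obtain ⟨v, hv, hv1, hv2⟩ := H0 γ hγ h1 h2 h3 h4
      exact ⟨v, hv, lt_of_le_of_lt hv1 hγg, hv2⟩
    · obtain ⟨h, hh, hmax⟩ := Finset.exists_max_image (V.filter fun v => v.1 < g.1) (fun v => v.1)
        ⟨n1, Finset.mem_filter.2 ⟨hn1, hn1g⟩⟩
      rw [Finset.mem_filter] at hh
      obtain ⟨hhV, hhg⟩ := hh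
      by_cases h5 : h.2 ≤ γ.2
      · exact ⟨h, hhV, hhg, h5⟩
      exfalso
      push Not at h4 h5
      have e1 := hVb h hhV
      have e2 := hVb g hg
      have e3 := hV0 h hhV
      have e4 := hV0 g hg
      have e5 : h ≠ g := by
        rintro rfl
        exact lt_irrefl _ hhg
      have e6 := hVd h hhV g hg e5
      have h6 : h.1 < γ.1 := by linarith
      have h7 : g.2 < γ.2 := by linarith
      obtain ⟨k, hk, hk1, hk2⟩ := H0 (h + g - γ) (Λ.sub_mem (Λ.add_mem (hVΛ h hhV) (hVΛ g hg)) hγ)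
        (by rw [Prod.fst_sub, Prod.fst_add]; linarith) (by rw [Prod.snd_sub, Prod.snd_add]; linarith)
        (by rw [Prod.fst_sub, Prod.fst_add, Prod.snd_sub, Prod.snd_add]; linarith)
        (by rw [Prod.fst_sub, Prod.fst_add, Prod.snd_sub, Prod.snd_add]; linarith)
      rw [Prod.fst_sub, Prod.fst_add] at hk1
      rw [Prod.snd_sub, Prod.snd_add] at hk2
      have h8 : k.1 < g.1 := by linarith
      have h9 : k.2 < h.2 := by linarith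
      have h10 : k.1 ≤ h.1 := hmax k (Finset.mem_filter.2 ⟨hk, h8⟩)
      rcases h10.lt_or_eq with h11 | h11
      · have := hlt k hk h hhV h11
        linarith
      · have h12 : k ≠ h := by
          rintro rfl
          exact lt_irrefl _ h9
        exact hne k hk h hhV h12 h11
  -- the map
  have hex : ∀ x : ℤ × ℤ, ∃ g : ℤ × ℤ, x ∈ Q → g ∈ V ∧ g.2 < x.2 ∧
      ∀ v ∈ V, v.2 < x.2 → g.1 ≤ v.1 := by
    intro x
    by_cases hx : x ∈ Q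
    · obtain ⟨g, hg, hgmin⟩ := Finset.exists_min_image (V.filter fun v => v.2 < x.2) (fun v => v.1)
        ⟨z, Finset.mem_filter.2 ⟨hz, by have := (hQ1 x hx).2; linarith⟩⟩
      rw [Finset.mem_filter] at hg
      exact ⟨g, fun _ => ⟨hg.1, hg.2, fun v hv hv2 => hgmin v (Finset.mem_filter.2 ⟨hv, hv2⟩)⟩⟩
    · exact ⟨0, fun h => absurd h hx⟩
  choose φ hφ using hex
  have hφn : ∀ x ∈ Q, φ x ≠ n1 := by
    intro x hx h1
    obtain ⟨hg, hg2, -⟩ := hφ x hx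
    rw [h1] at hg2
    have h2 : ∀ v ∈ V, v.2 < x.2 := by
      intro v hv
      by_cases h3 : n1 = v
      · rw [← h3]
        exact hg2
      · have h4 : n1.1 < v.1 := lt_of_le_of_ne (hmin v hv) (hne n1 hn1 v hv h3)
        have := hlt n1 hn1 v hv h4
        linarith
    have h3 : ∀ v ∈ V, x.1 ≤ v.1 := by
      intro v hv
      rcases hQV x hx v hv with h4 | h4
      · exact h4
      · have := h2 v hv
        linarith
    have hx1 := hQ1 x hx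
    have hxb := hQb x hx
    obtain ⟨g, hg, hg1, hg2'⟩ := H0 x (hQΛ x hx) (by linarith) (by linarith) (by linarith) hxb
    have h4 := h3 g hg
    have h5 := h2 g hg
    have h6 := hV0 g hg
    obtain ⟨k, hk, hk1, hk2⟩ := H0 (x - g) (Λ.sub_mem (hQΛ x hx) (hVΛ g hg))
      (by rw [Prod.fst_sub]; linarith) (by rw [Prod.snd_sub]; linarith)
      (by rw [Prod.fst_sub, Prod.snd_sub]; linarith) (by rw [Prod.fst_sub, Prod.snd_sub]; linarith)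
    rw [Prod.fst_sub] at hk1
    have := h3 k hk
    linarith
  have hinj : Set.InjOn φ (Q : Set (ℤ × ℤ)) := by
    have key : ∀ x ∈ Q, ∀ y ∈ Q, φ x = φ y → x ≠ y → x.2 ≤ y.2 → False := by
      intro x hx y hy hxy hne' hle
      obtain ⟨hg, hg2, hgmin⟩ := hφ y hy
      obtain ⟨-, hg3, -⟩ := hφ x hx
      rw [hxy] at hg3
      have h1 : y.1 < x.1 := by
        by_contra h2
        exact hne' (hQa x hx y hy (not_lt.1 h2) hle)
      have h2 : x.1 ≤ (φ y).1 := by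
        rcases hQV x hx _ hg with h3 | h3
        · exact h3
        · linarith
      have hy1 := hQ1 y hy
      have hg0 := hV0 _ hg
      have hn1' : n1.1 < (φ y).1 :=
        lt_of_le_of_ne (hmin _ hg) (hne n1 hn1 _ hg (Ne.symm (hφn y hy)))
      obtain ⟨h, hh, hh1, hh2⟩ := lemA (φ y - x + y)
        (Λ.add_mem (Λ.sub_mem (hVΛ _ hg) (hQΛ x hx)) (hQΛ y hy))
        (by rw [Prod.fst_add, Prod.fst_sub]; linarith)
        (by rw [Prod.snd_add, Prod.snd_sub]; linarith)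
        (by rw [Prod.fst_add, Prod.fst_sub, Prod.snd_add, Prod.snd_sub]; linarith) (φ y) hg
        (by rw [Prod.fst_add, Prod.fst_sub]; linarith) hn1'
      rw [Prod.snd_add, Prod.snd_sub] at hh2
      have := hgmin h hh (by linarith)
      linarith
    intro x hx y hy hxy
    by_contra hne'
    rcases le_total x.2 y.2 with h | h
    · exact key x hx y hy hxy hne' h
    · exact key y hy x hx hxy.symm (Ne.symm hne') h
  have hmaps : Set.MapsTo φ (Q : Set (ℤ × ℤ)) (V.erase n1 : Finset (ℤ × ℤ)) := by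
    intro x hx
    exact Finset.mem_coe.2 (Finset.mem_erase.2 ⟨hφn x hx, (hφ x hx).1⟩)
  have h1 := Finset.card_le_card_of_injOn φ hmaps hinj
  rw [Finset.card_erase_of_mem hn1] at h1
  have h2 : 0 < V.card := Finset.card_pos.2 ⟨n1, hn1⟩
  omega

/-- the planar lemma with the coordinates interchanged -/
theorem planar' (Λ : AddSubgroup (ℤ × ℤ)) (b : ℤ) (V Q : Finset (ℤ × ℤ))
    (hVΛ : ∀ v ∈ V, v ∈ Λ) (hV0 : ∀ v ∈ V, 0 ≤ v.1 ∧ 0 ≤ v.2) (hVb : ∀ v ∈ V, v.1 + v.2 ≤ b)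
    (hVd : ∀ v ∈ V, ∀ w ∈ V, v ≠ w → v.1 + v.2 + (w.1 + w.2) < 2 * b)
    (hVa : ∀ v ∈ V, ∀ w ∈ V, v.1 ≤ w.1 → v.2 ≤ w.2 → v = w)
    (H0 : ∀ γ ∈ Λ, 0 ≤ γ.1 → 0 ≤ γ.2 → 0 < γ.1 + γ.2 → γ.1 + γ.2 < b →
      ∃ v ∈ V, v.1 ≤ γ.1 ∧ v.2 ≤ γ.2)
    (hz : ∃ v ∈ V, v.1 = 0 ∨ v.2 = 0)
    (hQΛ : ∀ x ∈ Q, x ∈ Λ) (hQ1 : ∀ x ∈ Q, 1 ≤ x.1 ∧ 1 ≤ x.2) (hQb : ∀ x ∈ Q, x.1 + x.2 < b)
    (hQa : ∀ x ∈ Q, ∀ y ∈ Q, x.1 ≤ y.1 → x.2 ≤ y.2 → x = y)
    (hQV : ∀ x ∈ Q, ∀ v ∈ V, x.1 ≤ v.1 ∨ x.2 ≤ v.2) : Q.card + 1 ≤ V.card := by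
  classical
  obtain ⟨z, hzV, hz0 | hz0⟩ := hz
  · let e : ℤ × ℤ ↪ ℤ × ℤ := (Equiv.prodComm ℤ ℤ).toEmbedding
    have he : ∀ x : ℤ × ℤ, e x = (x.2, x.1) := fun x => rfl
    have hmem : ∀ (W : Finset (ℤ × ℤ)) (x : ℤ × ℤ), x ∈ W.map e ↔ (x.2, x.1) ∈ W := by
      intro W x
      rw [Finset.mem_map]
      constructor
      · rintro ⟨y, hy, rfl⟩
        exact hy
      · intro h
        exact ⟨(x.2, x.1), h, rfl⟩
    have h1 := planar (Λ.comap ((AddEquiv.prodComm : ℤ × ℤ ≃+ ℤ × ℤ) : ℤ × ℤ →+ ℤ × ℤ)) b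
      (V.map e) (Q.map e) ?_ ?_ ?_ ?_ ?_ ?_ ?_ ?_ ?_ ?_ ?_ ?_
    · rw [Finset.card_map, Finset.card_map] at h1
      exact h1
    · intro v hv
      exact hVΛ _ ((hmem _ _).1 hv)
    · intro v hv
      exact (hV0 _ ((hmem _ _).1 hv)).symm
    · intro v hv
      have := hVb _ ((hmem _ _).1 hv)
      simp only at this
      linarith
    · intro v hv w hw hvw
      have h2 : ((v.2, v.1) : ℤ × ℤ) ≠ (w.2, w.1) := by
        intro h3
        apply hvw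
        exact Prod.ext (congrArg Prod.snd h3) (congrArg Prod.fst h3)
      have := hVd _ ((hmem _ _).1 hv) _ ((hmem _ _).1 hw) h2
      simp only at this
      linarith
    · intro v hv w hw h2 h3
      have h4 := hVa _ ((hmem _ _).1 hv) _ ((hmem _ _).1 hw) h3 h2
      exact Prod.ext (congrArg Prod.snd h4) (congrArg Prod.fst h4)
    · intro γ hγ h2 h3 h4 h5
      obtain ⟨v, hv, hv1, hv2⟩ := H0 (γ.2, γ.1) hγ h3 h2 (by simp only; linarith)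
        (by simp only; linarith)
      exact ⟨(v.2, v.1), (hmem _ _).2 hv, hv2, hv1⟩
    · exact ⟨(z.2, z.1), (hmem _ _).2 hzV, hz0⟩
    · intro v hv
      exact hQΛ _ ((hmem _ _).1 hv)
    · intro v hv
      exact (hQ1 _ ((hmem _ _).1 hv)).symm
    · intro v hv
      have := hQb _ ((hmem _ _).1 hv)
      simp only at this
      linarith
    · intro v hv w hw h2 h3
      have h4 := hQa _ ((hmem _ _).1 hv) _ ((hmem _ _).1 hw) h3 h2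
      exact Prod.ext (congrArg Prod.snd h4) (congrArg Prod.fst h4)
    · intro x hx v hv
      exact (hQV _ ((hmem _ _).1 hx) _ ((hmem _ _).1 hv)).symm
  · exact planar Λ b V Q hVΛ hV0 hVb hVd hVa H0 ⟨z, hzV, hz0⟩ hQΛ hQ1 hQb hQa hQV

end Pool.Agent.X317.Wilf
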