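import Mathlib
import Pool.Agent.X317.Wilf.Planar
import Pool.Agent.X317.NSQ.Core

/-!
# Modular numerical semigroups
-/

set_option autoImplicit false
set_option linter.all false

namespace Pool.Agent.X317.Wilf

open Pool.Agent.X317.NSQ

/-- `S(a, b, 1)` -/
def modSG (a b : ℕ) : AddSubmonoid ℕ where
  carrier := {x | a * x % b ≤ x}
  zero_mem' := by
    show a * 0 % b ≤ 0
    rw [mul_zero, Nat.zero_mod]
  add_mem' := by
    intro x y hx hy
    show a * (x + y) % b ≤ x + y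
    have hx' : a * x % b ≤ x := hx
    have hy' : a * y % b ≤ y := hy
    rw [mul_add, Nat.add_mod]
    exact (Nat.mod_le _ _).trans (Nat.add_le_add hx' hy')

theorem mem_modSG {a b x : ℕ} : x ∈ modSG a b ↔ a * x % b ≤ x := Iff.rfl

/-- nonzero elements have an atom below -/
theorem exists_atom (S : AddSubmonoid ℕ) {x : ℕ} (hx : x ∈ S) (h0 : x ≠ 0) :
    ∃ g ∈ atoms S, ∃ s ∈ S, x = g + s := by
  induction x using Nat.strong_induction_on with
  | _ x ih =>
    by_cases hA : x ∈ atoms S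
    · exact ⟨x, hA, 0, S.zero_mem, rfl⟩
    · have h1 : ∃ a ∈ S, ∃ b ∈ S, a + b = x ∧ a ≠ 0 ∧ b ≠ 0 := by
        by_contra h2
        push Not at h2
        refine hA ⟨hx, h0, fun a ha b hb hab => ?_⟩
        by_cases ha0 : a = 0
        · exact Or.inl ha0
        · exact Or.inr (h2 a ha b hb hab ha0)
      obtain ⟨a, ha, b, hb, rfl, ha0, hb0⟩ := h1
      obtain ⟨g, hg, s, hs, rfl⟩ := ih a (by omega) ha ha0
      exact ⟨g, hg, s + b, S.add_mem hs hb, by omega⟩

section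
variable {a b : ℕ}

theorem mod_add (hb : 0 < b) (x y : ℕ) : a * (x + y) % b = a * x % b + a * y % b ∨
    a * (x + y) % b + b = a * x % b + a * y % b := by
  have h1 := Nat.mod_lt (a * x) hb
  have h2 := Nat.mod_lt (a * y) hb
  rw [mul_add, Nat.add_mod]
  rcases lt_or_ge (a * x % b + a * y % b) b with h | h
  · left
    exact Nat.mod_eq_of_lt h
  · right
    rw [Nat.mod_eq_sub_mod h, Nat.mod_eq_of_lt (by omega)]
    omega

theorem big_mem (hb : 0 < b) {x : ℕ} (hx : b ≤ x) : x ∈ modSG a b :=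
  ((Nat.mod_lt _ hb).le).trans hx

theorem gap_lt (hb : 0 < b) {x : ℕ} (hx : x ∉ modSG a b) : x < b := by
  by_contra h
  exact hx (big_mem hb (not_lt.1 h))

theorem gap_pos {x : ℕ} (hx : x ∉ modSG a b) : 0 < x := by
  rcases Nat.eq_zero_or_pos x with rfl | h
  · exact absurd (modSG a b).zero_mem hx
  · exact h

theorem refl_mem (hb : 0 < b) {x : ℕ} (hx : x ∉ modSG a b) : b - x ∈ modSG a b := by
  have h1 := gap_lt hb hx
  rw [mem_modSG] at hx ⊢
  push Not at hx
  have h2 := Nat.mod_lt (a * (b - x)) hb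
  rcases mod_add (a := a) hb (b - x) x with h3 | h3
  · rw [Nat.sub_add_cancel h1.le, Nat.mul_mod_left] at h3
    omega
  · rw [Nat.sub_add_cancel h1.le, Nat.mul_mod_left] at h3
    omega

theorem atom_le (hb : 0 < b) {g : ℕ} (hg : g ∈ atoms (modSG a b)) : g ≤ b := by
  classical
  by_contra hgb
  push Not at hgb
  have hex : ∃ m, m ∈ modSG a b ∧ m ≠ 0 := ⟨b, big_mem hb le_rfl, hb.ne'⟩
  obtain ⟨hm, hm0⟩ := Nat.find_spec hex
  have hmin : ∀ k, k < Nat.find hex → k ∈ modSG a b → k = 0 := by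
    intro k hk hkS
    by_contra h0
    exact Nat.find_min hex hk ⟨hkS, h0⟩
  set m := Nat.find hex with hmdef
  have hmb : m ≤ b := Nat.find_min' hex ⟨big_mem hb le_rfl, hb.ne'⟩
  rcases le_or_gt m (g - b) with h | h
  · rcases hg.2.2 m hm (g - m) (big_mem hb (by omega)) (by omega) with h1 | h1
    · exact hm0 h1
    · omega
  · have h1 : m - (g - b) ∉ modSG a b := by
      intro h2
      have := hmin _ (by omega) h2
      omega
    have h3 := refl_mem hb h1
    have h4 := gap_lt hb h1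
    rcases hg.2.2 m hm _ h3 (by omega) with h5 | h5
    · exact hm0 h5
    · omega

theorem sub_mem (hb : 0 < b) {x y : ℕ} (hxy : x ≤ y) (h1 : a * x % b ≤ a * y % b)
    (h2 : (y : ℤ) - x ≥ (a * y % b : ℕ) - (a * x % b : ℕ)) : y - x ∈ modSG a b := by
  rw [mem_modSG]
  have h3 := Nat.mod_lt (a * (y - x)) hb
  have h4 := Nat.mod_lt (a * y) hb
  rcases mod_add (a := a) hb (y - x) x with h5 | h5
  · rw [Nat.sub_add_cancel hxy] at h5
    omega
  · rw [Nat.sub_add_cancel hxy] at h5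
    omega

/-- the lattice -/
def lat (a b : ℕ) : AddSubgroup (ℤ × ℤ) where
  carrier := {p | (b : ℤ) ∣ a * (p.1 + p.2) - p.1}
  zero_mem' := by
    show (b : ℤ) ∣ a * ((0 : ℤ × ℤ).1 + (0 : ℤ × ℤ).2) - (0 : ℤ × ℤ).1
    rw [Prod.fst_zero, Prod.snd_zero]
    simp
  add_mem' := by
    intro p q hp hq
    show (b : ℤ) ∣ a * ((p + q).1 + (p + q).2) - (p + q).1
    rw [Prod.fst_add, Prod.snd_add]
    have h := dvd_add hp hq
    have e : (a : ℤ) * (p.1 + q.1 + (p.2 + q.2)) - (p.1 + q.1) =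
      (a * (p.1 + p.2) - p.1) + (a * (q.1 + q.2) - q.1) := by ring
    rw [e]
    exact h
  neg_mem' := by
    intro p hp
    show (b : ℤ) ∣ a * ((-p).1 + (-p).2) - (-p).1
    rw [Prod.fst_neg, Prod.snd_neg]
    have h := (dvd_neg (α := ℤ)).2 hp
    have e : (a : ℤ) * (-p.1 + -p.2) - -p.1 = -(a * (p.1 + p.2) - p.1) := by ring
    rw [e]
    exact h

theorem mem_lat {p : ℤ × ℤ} : p ∈ lat a b ↔ (b : ℤ) ∣ a * (p.1 + p.2) - p.1 := Iff.rfl

/-- the points of the atoms -/
def vt (a b : ℕ) (x : ℕ) : ℤ × ℤ := ((a * x % b : ℕ), (x : ℤ) - (a * x % b : ℕ))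

/-- the points of the pseudo-Frobenius numbers -/
def qt (a b : ℕ) (x : ℕ) : ℤ × ℤ := ((b : ℤ) - (a * x % b : ℕ), ((a * x % b : ℕ) : ℤ) - x)

theorem vt_inj : Function.Injective (vt a b) := by
  intro x y h
  have h1 := congrArg Prod.fst h
  have h2 := congrArg Prod.snd h
  simp only [vt] at h1 h2
  omega

theorem qt_inj : Function.Injective (qt a b) := by
  intro x y h
  have h1 := congrArg Prod.fst h
  have h2 := congrArg Prod.snd h
  simp only [qt] at h1 h2
  omega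

theorem vt_lat (x : ℕ) : vt a b x ∈ lat a b := by
  rw [mem_lat]
  show (b : ℤ) ∣ a * (((a * x % b : ℕ) : ℤ) + ((x : ℤ) - (a * x % b : ℕ))) - (a * x % b : ℕ)
  have h := Nat.mod_add_div (a * x) b
  refine ⟨((a * x / b : ℕ) : ℤ), ?_⟩
  have h' : ((a * x % b : ℕ) : ℤ) + (b : ℤ) * ((a * x / b : ℕ) : ℤ) = a * x := by
    exact_mod_cast h
  linarith

theorem qt_lat (x : ℕ) : qt a b x ∈ lat a b := by
  rw [mem_lat]
  show (b : ℤ) ∣ a * (((b : ℤ) - (a * x % b : ℕ)) + (((a * x % b : ℕ) : ℤ) - x)) -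
    ((b : ℤ) - (a * x % b : ℕ))
  have h := Nat.mod_add_div (a * x) b
  refine ⟨a - 1 - ((a * x / b : ℕ) : ℤ), ?_⟩
  have h' : ((a * x % b : ℕ) : ℤ) + (b : ℤ) * ((a * x / b : ℕ) : ℤ) = a * x := by
    exact_mod_cast h
  linarith

/-- **type ≤ embedding dimension − 1** -/
theorem type_lt (hb : 0 < b) (A P : Finset ℕ) (hA : ∀ x, x ∈ A ↔ x ∈ atoms (modSG a b))
    (hP : ∀ x ∈ P, x ∉ modSG a b ∧ ∀ s ∈ modSG a b, s ≠ 0 → x + s ∈ modSG a b) :
    P.card + 1 ≤ A.card := by
  classical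
  have hAa : ∀ x ∈ A, a * x % b ≤ x := fun x hx => ((hA x).1 hx).1
  have key := planar' (lat a b) (b : ℤ) (A.image (vt a b)) (P.image (qt a b)) ?_ ?_ ?_ ?_ ?_ ?_ ?_
    ?_ ?_ ?_ ?_ ?_
  · rwa [Finset.card_image_of_injective _ vt_inj, Finset.card_image_of_injective _ qt_inj] at key
  · intro v hv
    obtain ⟨x, hx, rfl⟩ := Finset.mem_image.1 hv
    exact vt_lat x
  · intro v hv
    obtain ⟨x, hx, rfl⟩ := Finset.mem_image.1 hv
    have := hAa x hx
    constructor
    · show (0 : ℤ) ≤ (a * x % b : ℕ)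
      positivity
    · show (0 : ℤ) ≤ (x : ℤ) - (a * x % b : ℕ)
      omega
  · intro v hv
    obtain ⟨x, hx, rfl⟩ := Finset.mem_image.1 hv
    have h := atom_le hb ((hA x).1 hx)
    show ((a * x % b : ℕ) : ℤ) + ((x : ℤ) - (a * x % b : ℕ)) ≤ b
    omega
  · intro v hv w hw hvw
    obtain ⟨x, hx, rfl⟩ := Finset.mem_image.1 hv
    obtain ⟨y, hy, rfl⟩ := Finset.mem_image.1 hw
    have h := atom_le hb ((hA x).1 hx)
    have h' := atom_le hb ((hA y).1 hy)
    have hxy : x ≠ y := by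
      rintro rfl
      exact hvw rfl
    show ((a * x % b : ℕ) : ℤ) + ((x : ℤ) - (a * x % b : ℕ)) +
      (((a * y % b : ℕ) : ℤ) + ((y : ℤ) - (a * y % b : ℕ))) < 2 * b
    omega
  · intro v hv w hw h1 h2
    obtain ⟨x, hx, rfl⟩ := Finset.mem_image.1 hv
    obtain ⟨y, hy, rfl⟩ := Finset.mem_image.1 hw
    have h1' : ((a * x % b : ℕ) : ℤ) ≤ (a * y % b : ℕ) := h1
    have h2' : (x : ℤ) - (a * x % b : ℕ) ≤ (y : ℤ) - (a * y % b : ℕ) := h2
    have hxy : x ≤ y := by omega
    have h3 := sub_mem (a := a) hb hxy (by omega) (by omega)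
    rcases ((hA y).1 hy).2.2 x ((hA x).1 hx).1 _ h3 (by omega) with h4 | h4
    · exact absurd h4 ((hA x).1 hx).2.1
    · have : x = y := by omega
      rw [this]
  · intro γ hγ h1 h2 h3 h4
    obtain ⟨u, hu⟩ := Int.eq_ofNat_of_zero_le h1
    obtain ⟨v, hv⟩ := Int.eq_ofNat_of_zero_le h2
    rw [hu, hv] at h3 h4
    have hs0 : u + v ≠ 0 := by omega
    have hsb : u + v < b := by omega
    have hmod : a * (u + v) % b = u := by
      rw [mem_lat, hu, hv] at hγ
      have h5 : (b : ℤ) ∣ ((a * (u + v) : ℕ) : ℤ) - ((u : ℕ) : ℤ) := by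
        push_cast
        exact hγ
      have h6 := (Nat.modEq_iff_dvd.2 h5 : u ≡ a * (u + v) [MOD b])
      have h7 : u % b = a * (u + v) % b := h6
      rw [← h7]
      exact Nat.mod_eq_of_lt (by omega)
    have hs : u + v ∈ modSG a b := by
      rw [mem_modSG, hmod]
      omega
    obtain ⟨g, hg, s, hs', hgs⟩ := exists_atom _ hs hs0
    have hg1 := hg.1
    rw [mem_modSG] at hg1 hs'
    refine ⟨vt a b g, Finset.mem_image_of_mem _ ((hA g).2 hg), ?_, ?_⟩
    · show ((a * g % b : ℕ) : ℤ) ≤ γ.1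
      rw [hu]
      rcases mod_add (a := a) hb g s with h8 | h8
      · rw [← hgs, hmod] at h8
        omega
      · rw [← hgs, hmod] at h8
        omega
    · show (g : ℤ) - (a * g % b : ℕ) ≤ γ.2
      rw [hv]
      rcases mod_add (a := a) hb g s with h8 | h8
      · rw [← hgs, hmod] at h8
        omega
      · rw [← hgs, hmod] at h8
        omega
  · by_cases hba : b ∈ atoms (modSG a b)
    · refine ⟨vt a b b, Finset.mem_image_of_mem _ ((hA b).2 hba), Or.inl ?_⟩
      show ((a * b % b : ℕ) : ℤ) = 0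
      rw [Nat.mul_mod_left]
      rfl
    · obtain ⟨g, hg, s, hs', hgs⟩ := exists_atom _ (big_mem (a := a) hb le_rfl) hb.ne'
      have hg1 := hg.1
      rw [mem_modSG] at hg1 hs'
      refine ⟨vt a b g, Finset.mem_image_of_mem _ ((hA g).2 hg), ?_⟩
      show ((a * g % b : ℕ) : ℤ) = 0 ∨ (g : ℤ) - (a * g % b : ℕ) = 0
      rcases mod_add (a := a) hb g s with h8 | h8
      · rw [← hgs, Nat.mul_mod_left] at h8
        omega
      · rw [← hgs, Nat.mul_mod_left] at h8
        omega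
  · intro x hx
    obtain ⟨y, hy, rfl⟩ := Finset.mem_image.1 hx
    exact qt_lat y
  · intro x hx
    obtain ⟨y, hy, rfl⟩ := Finset.mem_image.1 hx
    have h1 := (hP y hy).1
    rw [mem_modSG] at h1
    have h2 := Nat.mod_lt (a * y) hb
    constructor
    · show (1 : ℤ) ≤ (b : ℤ) - (a * y % b : ℕ)
      omega
    · show (1 : ℤ) ≤ ((a * y % b : ℕ) : ℤ) - y
      omega
  · intro x hx
    obtain ⟨y, hy, rfl⟩ := Finset.mem_image.1 hx
    have h1 := gap_pos (hP y hy).1
    show (b : ℤ) - (a * y % b : ℕ) + (((a * y % b : ℕ) : ℤ) - y) < b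
    omega
  · intro v hv w hw h1 h2
    obtain ⟨x, hx, rfl⟩ := Finset.mem_image.1 hv
    obtain ⟨y, hy, rfl⟩ := Finset.mem_image.1 hw
    have h1' : (b : ℤ) - (a * x % b : ℕ) ≤ (b : ℤ) - (a * y % b : ℕ) := h1
    have h2' : ((a * x % b : ℕ) : ℤ) - x ≤ ((a * y % b : ℕ) : ℤ) - y := h2
    have hxy : y ≤ x := by omega
    have h3 := sub_mem (a := a) hb hxy (by omega) (by omega)
    by_contra h4
    have h5 : x - y ≠ 0 := by
      intro h6
      apply h4
      rw [show x = y by omega]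
    have h7 := (hP y hy).2 _ h3 h5
    rw [Nat.add_sub_cancel' hxy] at h7
    exact (hP x hx).1 h7
  · intro v hv w hw
    obtain ⟨x, hx, rfl⟩ := Finset.mem_image.1 hv
    obtain ⟨g, hg, rfl⟩ := Finset.mem_image.1 hw
    show (b : ℤ) - (a * x % b : ℕ) ≤ (a * g % b : ℕ) ∨
      ((a * x % b : ℕ) : ℤ) - x ≤ (g : ℤ) - (a * g % b : ℕ)
    have h1 := (hP x hx).2 g ((hA g).1 hg).1 ((hA g).1 hg).2.1
    rw [mem_modSG] at h1
    rcases mod_add (a := a) hb x g with h8 | h8
    · right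
      omega
    · left
      omega

end

/-- every gap is a pseudo-Frobenius number minus an element -/
theorem exists_pf (S : AddSubmonoid ℕ) (B : ℕ) (hB : ∀ x, B < x → x ∈ S) (x : ℕ) (hx : x ∉ S) :
    ∃ f, f ∉ S ∧ (∀ s ∈ S, s ≠ 0 → f + s ∈ S) ∧ ∃ s ∈ S, f = x + s := by
  classical
  have hxB : x ≤ B := by
    by_contra h
    exact hx (hB x (not_le.1 h))
  obtain ⟨f, hf, hmax⟩ := Finset.exists_max_image
    ((Finset.range (B + 1)).filter fun f => f ∉ S ∧ ∃ s ∈ S, f = x + s) (fun f => f)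
    ⟨x, Finset.mem_filter.2 ⟨Finset.mem_range.2 (by omega), hx, 0, S.zero_mem, rfl⟩⟩
  rw [Finset.mem_filter, Finset.mem_range] at hf
  obtain ⟨hfB, hfS, s, hs, hfs⟩ := hf
  refine ⟨f, hfS, ?_, s, hs, hfs⟩
  intro t ht ht0
  by_contra h
  have h1 : f + t ≤ B := by
    by_contra h2
    exact h (hB _ (not_le.1 h2))
  have h2 := hmax (f + t) (Finset.mem_filter.2 ⟨Finset.mem_range.2 (by omega), h, s + t,
    S.add_mem hs ht, by omega⟩)
  omega

/-- Wilf from the type -/
theorem wilf_of_type (S : AddSubmonoid ℕ) (F : ℕ) (hF : F ∉ S) (hB : ∀ x, F < x → x ∈ S) (e : ℕ)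
    (he : ∀ P : Finset ℕ, (∀ x ∈ P, x ∉ S ∧ ∀ s ∈ S, s ≠ 0 → x + s ∈ S) → P.card + 1 ≤ e) :
    (e : ℤ) * (((S : Set ℕ)ᶜ).ncard : ℤ) ≤ ((e : ℤ) - 1) * ((F : ℤ) + 1) := by
  classical
  set G := (Finset.range (F + 1)).filter fun x => x ∉ S with hG
  set N := (Finset.range (F + 1)).filter fun x => x ∈ S with hN
  set P := G.filter fun x => ∀ s ∈ S, s ≠ 0 → x + s ∈ S with hPdef
  have hGN : N.card + G.card = F + 1 := by
    rw [hG, hN, Finset.card_filter_add_card_filter_not, Finset.card_range]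
  have hcomp : ((S : Set ℕ)ᶜ) = (G : Set ℕ) := by
    ext x
    rw [Set.mem_compl_iff, SetLike.mem_coe, Finset.mem_coe, hG, Finset.mem_filter,
      Finset.mem_range]
    constructor
    · intro h
      refine ⟨?_, h⟩
      by_contra h1
      exact h (hB x (by omega))
    · exact fun h => h.2
  rw [hcomp, Set.ncard_coe_finset]
  have hP := he P (by
    intro x hx
    rw [hPdef, Finset.mem_filter, hG, Finset.mem_filter] at hx
    exact ⟨hx.1.2, hx.2⟩)
  have hcov : G ⊆ (P ×ˢ N).image fun p => p.1 - p.2 := by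
    intro x hx
    rw [hG, Finset.mem_filter, Finset.mem_range] at hx
    obtain ⟨f, hf, hf2, s, hs, hfs⟩ := exists_pf S F hB x hx.2
    have hfF : f ≤ F := by
      by_contra h
      exact hf (hB f (not_le.1 h))
    refine Finset.mem_image.2 ⟨(f, s), Finset.mem_product.2 ⟨?_, ?_⟩, ?_⟩
    · rw [hPdef, Finset.mem_filter, hG, Finset.mem_filter, Finset.mem_range]
      exact ⟨⟨by omega, hf⟩, hf2⟩
    · rw [hN, Finset.mem_filter, Finset.mem_range]
      show s < F + 1 ∧ s ∈ S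
      exact ⟨by omega, hs⟩
    · show f - s = x
      omega
  have hle : G.card ≤ P.card * N.card := by
    calc G.card ≤ ((P ×ˢ N).image fun p => p.1 - p.2).card := Finset.card_le_card hcov
      _ ≤ (P ×ˢ N).card := Finset.card_image_le
      _ = P.card * N.card := Finset.card_product _ _
  have h1 : G.card ≤ (e - 1) * N.card := hle.trans (Nat.mul_le_mul_right _ (by omega))
  have h2 : (G.card : ℤ) ≤ ((e : ℤ) - 1) * N.card := by
    have h3 : ((e - 1 : ℕ) : ℤ) = (e : ℤ) - 1 := by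
      have : 1 ≤ e := by omega
      push_cast [Nat.cast_sub this]
      ring
    rw [← h3]
    exact_mod_cast h1
  have h4 : ((F : ℤ) + 1) = N.card + G.card := by
    exact_mod_cast hGN.symm
  rw [h4]
  nlinarith [h2]

end Pool.Agent.X317.Wilf
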